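import Pool.Agent.X289.Four

/-!
# Powers and products of at most four elliptic curves: the order at `s = m + 1`, if it exists

Let `E_0, ..., E_3` be elliptic curves without complex multiplication over a totally real field `K` (for
instance `K = ℚ`), no two of which are isogenous over an algebraic closure, and let `X` be a product of powers of
the `E_i`.  The `L`-function of `H^{2m}(X)` is, up to finitely many Euler factors and after a translation of `s`
by `m`, a product of the functions `L(a, s) = L(Sym^{a_0} E_0 × ... × Sym^{a_3} E_3, s)` (normalised, so that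
the edge of absolute convergence is `Re s = 1`); `L(0, s) = ζ_K(s)` occurs with the multiplicity of the trivial
representation of `SU(2)⁴` in `H^{2m}(X)(m)`, which is the rank of the group of algebraic classes (for products of
elliptic curves the Hodge classes are generated by divisors: Tate, Imai, Murty).  So Tate's formula for `X`
says that `L(a, s)` has the order `0` at `s = 1` for the `a ≠ 0` which occur.

For at most two nonzero exponents this is known (potential automorphy of the symmetric powers).  For three or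
four nonzero exponents, apart from some small ones, no continuation of `L(a, s)` is known.  What is known is
the joint law of every PAIR of the curves: the product of two Sato-Tate laws.  The theorem uses only this.  It
says, for every `a ≠ 0` and every real `τ`:

* `|log |L(a, 1 + iτ + ε)|| ≤ (1 - δ) log (1/ε)` for some `δ > 0` and all small `ε > 0`, so that `L(a, s)` cannot
  grow or decay at any point of the edge as fast as at a pole or a zero;
* if `L(a, s)` has an order at `1 + iτ` in the sense of the problem (`ε^{-k} L(a, 1 + iτ + ε)` has a finite nonzero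
  limit for `ε → 0+`), then it is `0`; the same for meromorphic continuations;
* so if the orders at `s = 1` exist for all factors of a product `L(s)` of powers of functions `L(a, s)`,
  then `L(s)` has a pole at `s = 1` whose order is the multiplicity of `L(0, s)`: Tate's formula.

So for these `X` Tate's formula can only fail if one of the orders does not exist.  Each function is
considered separately: nothing is assumed of the other `L(b, s)`, or of `L(a, s)` at other points.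

The proof: with `U_a` the characters of `SU(2)`, the mean `M` (along an ultrafilter) of
`U_{a_0} U_{a_1} · U_{a_2} U_{a_3} cos (τ log q_v)` is at most one in absolute value by the pair laws; if it
were `± 1` then `|U_{a_0} U_{a_1}| ≤ |U_{a_2} U_{a_3}|` almost everywhere, and near a zero of `U_{a_2}` one of
`U_{a_0}`, `U_{a_1}` would be small; but by the pair laws this has small conditional probability.
-/

set_option autoImplicit false
set_option linter.unusedSectionVars false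

namespace Pool.Agent.Results.MP_058a58_ag.FourCurves

open NumberField IsDedekindDomain Filter Topology MeasureTheory

section

variable {K : Type} [Field K] [NumberField K]

/-- The average of `g` over the primes of `K` of norm at most `N`. -/
noncomputable def avg (g : HeightOneSpectrum (𝓞 K) → ℝ) (N : ℕ) : ℝ :=
  (∑ᶠ v : {v : HeightOneSpectrum (𝓞 K) // Ideal.absNorm v.asIdeal ≤ N}, g v.1) /
    (Nat.card {v : HeightOneSpectrum (𝓞 K) // Ideal.absNorm v.asIdeal ≤ N} : ℝ)

/-- The integral of `f` for the Sato-Tate law on `[-2, 2]`. -/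
noncomputable def stIntegral (f : ℝ → ℝ) : ℝ :=
  2 / Real.pi * ∫ t in (0 : ℝ)..Real.pi, f (2 * Real.cos t) * Real.sin t ^ 2

/-- The pairs of traces `(2 cos θ_v, 2 cos θ'_v)` are distributed by the product of two Sato-Tate
laws. -/
def PairLaw (θ θ' : HeightOneSpectrum (𝓞 K) → ℝ) : Prop :=
  ∀ f : ℝ × ℝ → ℝ, Continuous f →
    Tendsto (avg fun v => f (2 * Real.cos (θ v), 2 * Real.cos (θ' v))) atTop
      (𝓝 (stIntegral fun x => stIntegral fun y => f (x, y)))

/-- The Euler product of `Sym^{a_0} ⊗ Sym^{a_1} ⊗ Sym^{a_2} ⊗ Sym^{a_3}`, with the local factors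
`∏_k (1 - ∏_i exp(i (a_i - 2 k_i) θ_i) q_v^{-s})⁻¹` over all `k` with `0 ≤ k_i ≤ a_i`. -/
noncomputable def LFun (θ : Fin 4 → HeightOneSpectrum (𝓞 K) → ℝ) (a : Fin 4 → ℕ) (s : ℂ) : ℂ :=
  ∏' v : HeightOneSpectrum (𝓞 K), (∏ k : (i : Fin 4) → Fin (a i + 1),
    (1 - (∏ i, Complex.exp ((((a i : ℝ) - 2 * ((k i : ℕ) : ℝ)) * θ i v : ℝ) * Complex.I)) *
      (Ideal.absNorm v.asIdeal : ℂ) ^ (-s)))⁻¹

end

/-- `L` has the order `k` at `s₀`: `ε^{-k} L(s₀ + ε)` has a finite nonzero limit for `ε → 0+`. -/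
def HasOrder (L : ℂ → ℂ) (s₀ : ℂ) (k : ℤ) : Prop :=
  ∃ c : ℂ, c ≠ 0 ∧ Tendsto (fun ε : ℝ => (ε : ℂ) ^ (-k) * L (s₀ + ε)) (𝓝[>] 0) (𝓝 c)

section Bridge

open Pool.Agent.TH553.ST Pool.Agent.TH553.RS Pool.Agent.W540.BE
open Pool.Agent.X289.Dens Pool.Agent.X289.Cls Pool.Agent.X289.Uch Pool.Agent.X289.SymM
  Pool.Agent.X289.Three Pool.Agent.X289.Al Pool.Agent.X289.Main Pool.Agent.X289.Multi

theorem HasOrder.mul {L L' : ℂ → ℂ} {s₀ : ℂ} {k k' : ℤ} (h : HasOrder L s₀ k)
    (h' : HasOrder L' s₀ k') : HasOrder (fun s => L s * L' s) s₀ (k + k') := by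
  obtain ⟨c, h1, h2⟩ := h
  obtain ⟨c', h1', h2'⟩ := h'
  refine ⟨c * c', mul_ne_zero h1 h1', (h2.mul h2').congr' ?_⟩
  filter_upwards [self_mem_nhdsWithin] with ε hε
  have hε0 : (ε : ℂ) ≠ 0 := by
    have : (0 : ℝ) < ε := hε
    exact_mod_cast this.ne'
  rw [neg_add, zpow_add₀ hε0]
  ring

theorem HasOrder.one (s₀ : ℂ) : HasOrder (fun _ => 1) s₀ 0 :=
  ⟨1, one_ne_zero, by simp⟩

theorem HasOrder.pow {L : ℂ → ℂ} {s₀ : ℂ} {k : ℤ} (h : HasOrder L s₀ k) (n : ℕ) :
    HasOrder (fun s => L s ^ n) s₀ (n * k) := by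
  induction n with
  | zero => simpa using HasOrder.one s₀
  | succ n ih =>
    have := ih.mul h
    simp only [pow_succ]
    push_cast
    rw [add_mul, one_mul]
    exact this

/-- the size -/
theorem size_of_order {L : ℂ → ℂ} {s₀ : ℂ} {k : ℤ} (h : HasOrder L s₀ k) :
    Tendsto (fun ε : ℝ => Real.log ‖L (s₀ + ε)‖ / Real.log (1 / ε)) (𝓝[>] 0)
      (𝓝 (-(k : ℝ))) := by
  obtain ⟨c, h1, h2⟩ := h
  have h3 := h2.norm
  have hc : 0 < ‖c‖ := norm_pos_iff.2 h1
  have h4 := (Real.continuousAt_log hc.ne').tendsto.comp h3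
  have hlam : Tendsto (fun ε : ℝ => Real.log (1 / ε)) (𝓝[>] 0) atTop := by
    have := Real.tendsto_log_atTop.comp (tendsto_inv_nhdsGT_zero (𝕜 := ℝ))
    refine this.congr fun ε => ?_
    simp [Function.comp]
  have h5 : Tendsto (fun ε : ℝ => Real.log ‖(ε : ℂ) ^ (-k) * L (s₀ + ε)‖ / Real.log (1 / ε))
      (𝓝[>] 0) (𝓝 0) := h4.div_atTop hlam
  have h6 := h5.sub (tendsto_const_nhds (x := (k : ℝ)))
  rw [zero_sub] at h6
  refine h6.congr' ?_
  have h7 : ∀ᶠ ε : ℝ in 𝓝[>] 0, (ε : ℂ) ^ (-k) * L (s₀ + ε) ≠ 0 := h2.eventually_ne h1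
  filter_upwards [h7, self_mem_nhdsWithin, hlam.eventually (eventually_gt_atTop 0)]
    with ε h8 h9 h10
  have hε : (0 : ℝ) < ε := h9
  have h11 : L (s₀ + ε) ≠ 0 := right_ne_zero_of_mul h8
  have h12 : ‖(ε : ℂ) ^ (-k)‖ = ε ^ (-k) := by
    rw [norm_zpow, Complex.norm_real, Real.norm_eq_abs, abs_of_pos hε]
  rw [norm_mul, h12, Real.log_mul (zpow_pos hε _).ne' (norm_ne_zero_iff.2 h11), Real.log_zpow]
  rw [one_div, Real.log_inv] at h10 ⊢
  have h13 : Real.log ε ≠ 0 := (neg_pos.1 h10).ne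
  push_cast
  field_simp
  ring

variable {K : Type} [Field K] [NumberField K]

theorem avg_eq (g : HeightOneSpectrum (𝓞 K) → ℝ) : avg g = mn g := by
  funext N
  have hs : ∀ v, v ∈ upto K N ↔ Ideal.absNorm v.asIdeal ≤ N := fun v => mem_upto
  let e : {v : HeightOneSpectrum (𝓞 K) // Ideal.absNorm v.asIdeal ≤ N} ≃ (upto K N) :=
    Equiv.subtypeEquivRight fun v => (hs v).symm
  have hfin : Finite {v : HeightOneSpectrum (𝓞 K) // Ideal.absNorm v.asIdeal ≤ N} :=
    Finite.of_equiv _ e.symm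
  unfold avg mn
  have h1 : (∑ᶠ v : {v : HeightOneSpectrum (𝓞 K) // Ideal.absNorm v.asIdeal ≤ N}, g v.1) =
      ∑ v ∈ upto K N, g v := by
    rw [← Finset.sum_coe_sort, ← finsum_eq_sum_of_fintype, ← finsum_comp_equiv e]
    rfl
  have h2 : Nat.card {v : HeightOneSpectrum (𝓞 K) // Ideal.absNorm v.asIdeal ≤ N} =
      (upto K N).card := by
    rw [Nat.card_congr e, Nat.card_eq_fintype_card, Fintype.card_coe]
  rw [h1, h2, smul_eq_mul, div_eq_inv_mul]

theorem st_eq (f : ℝ → ℝ) : stIntegral f = J (dk 1) fun x => f (2 * x) := by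
  unfold stIntegral J dk
  have e : ∀ t : ℝ, f (2 * Real.cos t) * (2 * Real.sin ((1 : ℕ) * t) ^ 2) =
      2 * (f (2 * Real.cos t) * Real.sin t ^ 2) := fun t => by
    rw [Nat.cast_one, one_mul]
    ring
  simp only [e]
  rw [intervalIntegral.integral_const_mul]
  ring

theorem pl_of {θ θ' : HeightOneSpectrum (𝓞 K) → ℝ} (h : PairLaw θ θ') : PL θ θ' := by
  intro f g hf hg
  have h1 := h (fun p => f (p.1 / 2) * g (p.2 / 2))
    ((hf.comp (continuous_fst.div_const 2)).mul (hg.comp (continuous_snd.div_const 2)))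
  have e : ∀ t : ℝ, 2 * t / 2 = t := fun t => by ring
  simp only [e] at h1
  rw [avg_eq] at h1
  have e2 : (stIntegral fun x => stIntegral fun y => f (x / 2) * g (y / 2)) =
      J (dk 1) f * J (dk 1) g := by
    simp only [st_eq, e, J_smul]
    have e3 : (fun x => f x * J (dk 1) g) = fun x => J (dk 1) g * f x := by
      funext x
      ring
    rw [e3, J_smul]
    ring
  rw [e2] at h1
  exact h1

theorem lfun_eq (θ : Fin 4 → HeightOneSpectrum (𝓞 K) → ℝ) (a : Fin 4 → ℕ) :
    LFun θ a = LA (am θ a) := rfl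

/-- the order is the negative of a mean value -/
theorem mean_of_order {θ : Fin 4 → HeightOneSpectrum (𝓞 K) → ℝ} {a : Fin 4 → ℕ} {τ : ℝ} {k : ℤ}
    (h : HasOrder (LFun θ a) (1 + τ * Complex.I) k) {U : Ultrafilter ℝ}
    (hU : (U : Filter ℝ) ≤ 𝓝[>] 0) :
    (M (nm K) U fun v => (∏ i, Cf (a i) (Real.cos (θ i v))) * cw K τ v) = -k := by
  rw [lfun_eq] at h
  have h1 := size_of_order h
  have h2 := (size_LA (norm_am θ a) (sum_am θ a) τ).2.add h1
  rw [zero_add] at h2
  exact M_of_tendsto hU (h2.congr fun ε => by ring)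

theorem zero_order {θ : Fin 4 → HeightOneSpectrum (𝓞 K) → ℝ}
    (hp : ∀ i j, i ≠ j → PL (θ i) (θ j)) {a : Fin 4 → ℕ} (ha : a ≠ 0) {τ : ℝ} {k : ℤ}
    (h : HasOrder (LFun θ a) (1 + τ * Complex.I) k) : k = 0 := by
  obtain ⟨U, hU⟩ : ∃ U : Ultrafilter ℝ, (U : Filter ℝ) ≤ 𝓝[>] 0 :=
    ⟨Ultrafilter.of (𝓝[>] 0), Ultrafilter.of_le _⟩
  have h1 := Pool.Agent.X289.Four.all hp ha τ hU
  rw [mean_of_order h hU, abs_neg] at h1
  have h2 : |k| < 1 := by exact_mod_cast h1
  exact Int.abs_lt_one_iff.1 h2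

theorem zeta_order {θ : Fin 4 → HeightOneSpectrum (𝓞 K) → ℝ} {k : ℤ}
    (h : HasOrder (LFun θ 0) 1 k) : k = -1 := by
  obtain ⟨U, hU⟩ : ∃ U : Ultrafilter ℝ, (U : Filter ℝ) ≤ 𝓝[>] 0 :=
    ⟨Ultrafilter.of (𝓝[>] 0), Ultrafilter.of_le _⟩
  have h0 : HasOrder (LFun θ 0) (1 + ((0 : ℝ) : ℂ) * Complex.I) k := by simpa using h
  have h1 := mean_of_order h0 hU
  simp only [Pi.zero_apply, Cf_zero, Finset.prod_const_one, cw_zero, mul_one] at h1
  rw [M_one (sysF K) hU] at h1
  have h2 : (k : ℝ) = ((-1 : ℤ) : ℝ) := by push_cast; linarith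
  exact_mod_cast h2

theorem prod_order {θ : Fin 4 → HeightOneSpectrum (𝓞 K) → ℝ}
    (hp : ∀ i j, i ≠ j → PL (θ i) (θ j)) (m : (Fin 4 → ℕ) → ℕ) (S : Finset (Fin 4 → ℕ))
    (h : ∀ a ∈ S, ∃ k : ℤ, HasOrder (LFun θ a) 1 k) :
    HasOrder (fun s => ∏ a ∈ S, LFun θ a s ^ m a) 1 (-((if 0 ∈ S then m 0 else 0 : ℕ) : ℤ)) := by
  induction S using Finset.induction_on with
  | empty => simpa using HasOrder.one 1
  | insert b S hb ih =>
    obtain ⟨k, hk⟩ := h b (Finset.mem_insert_self b S)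
    have h1 := (hk.pow (m b)).mul (ih fun a ha => h a (Finset.mem_insert_of_mem ha))
    simp only [Finset.prod_insert hb]
    have e : (m b : ℤ) * k + -((if 0 ∈ S then m 0 else 0 : ℕ) : ℤ) =
        -((if 0 ∈ insert b S then m 0 else 0 : ℕ) : ℤ) := by
      by_cases hb0 : b = 0
      · subst hb0
        rw [zeta_order hk, if_neg hb, if_pos (Finset.mem_insert_self _ _)]
        push_cast
        ring
      · have hk0 : k = 0 := by
          have h0 : HasOrder (LFun θ b) (1 + ((0 : ℝ) : ℂ) * Complex.I) k := by simpa using hk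
          exact zero_order hp hb0 h0
        have h2 : (0 : Fin 4 → ℕ) ∈ insert b S ↔ (0 : Fin 4 → ℕ) ∈ S := by
          rw [Finset.mem_insert]
          exact ⟨fun h => h.resolve_left fun h => hb0 h.symm, Or.inr⟩
        simp only [h2]
        rw [hk0]
        ring
    rw [← e]
    exact h1

end Bridge

/-- **At most four elliptic curves.**  Let `K` be a number field and `θ_0, ..., θ_3` families of angles for
the primes of `K` such that for `i ≠ j` the pairs of traces `(2 cos θ_i, 2 cos θ_j)` are distributed by the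
product of two Sato-Tate laws.

1. Let `a ≠ 0` be a quadruple of exponents and `τ` a real number.  Then `L(a, 1 + iτ + ε) ≠ 0` for small
   `ε > 0` and for some `δ > 0` and all small `ε > 0`, `|log |L(a, 1 + iτ + ε)|| ≤ (1 - δ) log (1/ε)`.
   If `L(a, s)` has an order at `1 + iτ` then it is `0`, and no meromorphic continuation of `L(a, s)` to a
   neighbourhood of `1 + iτ` has a zero or a pole at `1 + iτ`.
2. Let `S` be a finite set of quadruples, with multiplicities `m_a`, and suppose that all `L(a, s)`,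
   `a ∈ S`, have an order at `s = 1`.  Then `∏ L(a, s)^{m_a}`, `a ∈ S`, has the order `-m_0` at `s = 1` if
   `0 ∈ S`, and the order `0` otherwise. -/
theorem result {K : Type} [Field K] [NumberField K] (θ : Fin 4 → HeightOneSpectrum (𝓞 K) → ℝ)
    (hpair : ∀ i j, i ≠ j → PairLaw (θ i) (θ j)) :
    (∀ (a : Fin 4 → ℕ) (τ : ℝ), a ≠ 0 →
      (∀ᶠ ε : ℝ in 𝓝[>] 0, LFun θ a (1 + τ * Complex.I + ε) ≠ 0) ∧
      (∃ δ : ℝ, 0 < δ ∧ ∀ᶠ ε : ℝ in 𝓝[>] 0,
        |Real.log ‖LFun θ a (1 + τ * Complex.I + ε)‖| ≤ (1 - δ) * Real.log (1 / ε)) ∧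
      (∀ k : ℤ, HasOrder (LFun θ a) (1 + τ * Complex.I) k → k = 0) ∧
      ∀ Λ : ℂ → ℂ, MeromorphicAt Λ (1 + τ * Complex.I) →
        (∀ᶠ s in 𝓝 ((1 : ℂ) + τ * Complex.I), (1 : ℝ) < s.re → Λ s = LFun θ a s) →
        meromorphicOrderAt Λ (1 + τ * Complex.I) = 0) ∧
    ∀ (m : (Fin 4 → ℕ) → ℕ) (S : Finset (Fin 4 → ℕ)),
      (∀ a ∈ S, ∃ k : ℤ, HasOrder (LFun θ a) 1 k) →
      HasOrder (fun s => ∏ a ∈ S, LFun θ a s ^ m a) 1
        (-((if 0 ∈ S then m 0 else 0 : ℕ) : ℤ)) := by
  have hp : ∀ i j, i ≠ j → Pool.Agent.X289.Three.PL (θ i) (θ j) := fun i j h => pl_of (hpair i j h)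
  refine ⟨fun a τ ha => ?_, fun m S h => prod_order hp m S h⟩
  have hs := Pool.Agent.X289.Al.size_LA (Pool.Agent.X289.Multi.norm_am θ a)
    (Pool.Agent.X289.Multi.sum_am θ a) τ
  have hlt : ∃ δ : ℝ, 0 < δ ∧ ∀ᶠ ε : ℝ in 𝓝[>] 0,
      |Real.log ‖LFun θ a (1 + τ * Complex.I + ε)‖ / Real.log (1 / ε)| ≤ 1 - δ := by
    refine Pool.Agent.TH553.ST.unif_lt fun U hU => ?_
    refine ⟨_, ?_, Pool.Agent.X289.Four.all hp ha τ hU⟩
    have hb : Pool.Agent.TH553.RS.Bd fun v => (∏ i, Pool.Agent.X289.Uch.Cf (a i)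
        (Real.cos (θ i v))) * Pool.Agent.X289.SymM.cw K τ v :=
      (Pool.Agent.X289.Multi.bd_prod _ fun i => Pool.Agent.X289.Uch.cont_Cf _).mul
        (Pool.Agent.X289.SymM.bd_cw τ)
    have h1 := Pool.Agent.TH553.RS.M_lim (Pool.Agent.TH553.RS.sysF K) hU hb
    have h2 := h1.sub (hs.2.mono_left hU)
    rw [sub_zero] at h2
    refine h2.congr fun ε => ?_
    rw [lfun_eq]
    ring
  refine ⟨hs.1, ?_, fun k hk => zero_order hp ha hk, fun Λ h1 h2 => ?_⟩
  · obtain ⟨δ, hδ, h1⟩ := hlt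
    refine ⟨δ, hδ, ?_⟩
    have hlam : ∀ᶠ ε : ℝ in 𝓝[>] 0, 0 < Real.log (1 / ε) := by
      have h3 : Tendsto (fun ε : ℝ => Real.log (1 / ε)) (𝓝[>] 0) atTop := by
        have := Real.tendsto_log_atTop.comp (tendsto_inv_nhdsGT_zero (𝕜 := ℝ))
        refine this.congr fun ε => ?_
        simp [Function.comp]
      exact h3.eventually (eventually_gt_atTop 0)
    filter_upwards [h1, hlam] with ε h4 h5
    rwa [abs_div, abs_of_pos h5, div_le_iff₀ h5] at h4
  · obtain ⟨e, h3, h4⟩ := Pool.Agent.X289.Al.ord_LA (Pool.Agent.X289.Multi.norm_am θ a)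
      (Pool.Agent.X289.Multi.sum_am θ a) (Λ := Λ) (τ := τ) ⟨h1, h2⟩
    obtain ⟨U, hU⟩ : ∃ U : Ultrafilter ℝ, (U : Filter ℝ) ≤ 𝓝[>] 0 :=
      ⟨Ultrafilter.of (𝓝[>] 0), Ultrafilter.of_le _⟩
    have h5 := Pool.Agent.X289.Four.all hp ha τ hU
    rw [h4 U hU, abs_neg] at h5
    have h6 : |e| < 1 := by exact_mod_cast h5
    rw [h3, Int.abs_lt_one_iff.1 h6]
    rfl

end Pool.Agent.Results.MP_058a58_ag.FourCurves
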