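import Pool.Agent.X298.HC.KNorm2

/-!
# Tate's formula for the pole of `L(H^{2m}(X × Y), s)` and the potentially abelian part of `X`

`X` is an arbitrary smooth projective variety over a number field `K` (for example `K = ℚ`).  For every
degree `a` let `κ a` be a virtual representation of the Weil group of `K` (an integral combination of
representations `Ind ψ N^{-iτ}`, `ψ` a Hecke character of a finite extension of `K`) whose dual is a part
of `H^a(X)`, for example the largest such part, or only a known one, or zero.  `Y` runs through the
smooth projective varieties over `K` with potentially abelian cohomology: `Tr(Frob_v | H^b(Y))` is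
`q_v^{b/2} Tr(Frob_v | ρ b)` for such representations `ρ b` (products of varieties dominated by abelian
varieties with potential complex multiplication, Fermat varieties, linear varieties, ...).

If `κ a` is the largest part, then the Tate classes of `H^{2m}(X × Y)(m)` are those of the part
`⊕ (κ a)^∨ ⊗ H^{2m-a}(Y)`, and their number is `h = ∑_a ⟨κ_a, ρ_{2m-a}⟩`; by the conjectures of Tate it is
the order of the pole of `L(H^{2m}(X × Y), s)` at `s = m + 1`.

The definitions are in `Pool.Agent.X298.HC.Defs` (`HeckeChar`), `Pool.Agent.X298.HC.BC`,
`Pool.Agent.X298.HC.PDefs`, `Pool.Agent.X298.HC.MDefs` (`Virt`: virtual representations, `Virt.inter`: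
intertwining numbers by Mackey's formula), `Pool.Agent.X298.HC.KDefs` (`IsPart`, `RestMoment`),
`Pool.Agent.X298.HC.KPoleDefs` and `Pool.Agent.W353.EF.Defs`, `Pool.Agent.W353.EH.Defs`.
-/

set_option autoImplicit false

namespace Pool.Agent.Results.MP_058a58_ag.PotentiallyAbelianPart

open NumberField IsDedekindDomain Filter Topology Polynomial Pool.Agent.X298.HC

/-- **Tate's formula for products, relative to the potentially abelian part of `X`.**  Let `X` be a
projective variety of dimension `d` over a number field `K`, with Betti numbers `N a`, let the duals of
`κ a` be parts of `H^a(X)`, and let `R a` be the square of the dimension of the rest, or the order of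
the pole of the `L`-function of its tensor square (`RestMoments`).

0. For `Y` and `m` as above the norm of the tuple `(ρ_{2m-a})_a` is between `0` and `∑ b_{2m-a}(Y)²`.

1. (`TateGram`)  For finitely many `(Y_k, m_k)` and real `c_k`, with `h_k` as above and `q_kl` the inner
products of the tuples, the orders `r_k` of the poles satisfy
`(∑ c_k (r_k - h_k))² ≤ (∑ R a) ∑ c_k c_l q_kl`, if there are continuations; without any continuation
the same holds, up to `η`, for `log |L(H^{2m}(X × Y), m + 1 + ε)| / log(1/ε)` instead of the orders, for
all small `ε > 0`.

2. (`TateExceptional`)  For every `r` there are at most `r ∑ R a` exceptional pairs `(Y_s, m_s)` such that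
for all `(Y, m)` with a tuple of norm at most `r` and orthogonal to those of the exceptional pairs the
order of the pole of `L(H^{2m}(X × Y), s)` at `s = m + 1` is `h`, if it exists, and in any case the
quotient of logarithms differs from `h` by less than one for arbitrarily small `ε > 0`.

3. (`TateMonomial`)  If all `L(H^a(X) ⊗ π, s)`, `π` monomial and irreducible, have continuations to
`s = a/2 + 1`, then there is a set `S` of at most `∑ R a` pairs `(a, π)` such that the order of the pole
is `h` for all `(Y, m)` for which the `ρ b` are composed of monomial irreducible representations `π`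
(any number of them) with `(2m - b, π)` not in `S`, and the quotient of logarithms tends to `h`. -/
theorem result {K : Type} [Field K] [NumberField K] {n : ℕ}
    (X : Set (MvPolynomial (Fin n) (𝓞 K))) (d : ℕ) (N R : ℕ → ℕ) (κ : ℕ → Virt K)
    (hR : RestMoments X d N κ R) :
    (∀ D : ProdData X d N, 0 ≤ tupleInter d D.tuple D.tuple ∧
      tupleInter d D.tuple D.tuple ≤ ∑ p ∈ degrees d D.e (2 * D.m), (D.M p.2 : ℤ) ^ 2) ∧
    TateGram X d N R κ ∧
    (∀ r : ℕ, TateExceptional X d N R κ r) ∧
    (ContinuationsAll X d N → TateMonomial X d N R κ) :=
  ⟨tuple_norm, tate_gram hR, tate_exceptional hR, tate_monomial hR⟩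

end Pool.Agent.Results.MP_058a58_ag.PotentiallyAbelianPart
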