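import Pool.Agent.X298.HC.MMain2
import Pool.Agent.X298.HC.PoleDefs

/-!
# The pole at `s = m + 1` for the products with all varieties with potentially abelian cohomology

`X` is an arbitrary smooth projective variety over a number field `K`, for example `K = ℚ`.  `Y` runs over
the varieties over `K` whose cohomology is described by (virtual) representations of the Weil group of
`K`: these are, by Brauer and Deligne, the integral combinations of representations induced from Hecke
characters of finite extensions of `K`.  Examples (theorems of Shimura, Taniyama, Weil, Deligne) are all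
abelian varieties over `K` which have complex multiplication over some extension of `K`, all Fermat
hypersurfaces, all K3 surfaces with complex multiplication (e.g. those with Picard number 20), all
varieties with a cell decomposition over an extension, and their products; over `K = ℚ` the
endomorphisms need not be defined over `ℚ`.

By Künneth `H^{2m}(X × Y)` is the sum of the `H^a(X) ⊗ H^b(Y)`, `a + b = 2m`.  If `ρ_b` is the
representation for `H^b(Y)` and `κ_b` a part of it, for instance the part `T_b · 1` on which the Weil
group acts trivially, it contains `H^a(X) ⊗ κ_b`, and the rest `ρ_b - κ_b` is expected to contribute to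
the pole at `s = m + 1` only if it has a constituent which occurs in the cohomology of `X`.

The definitions are in `Pool.Agent.X298.HC.Defs` (`HeckeChar`), `Pool.Agent.X298.HC.PDefs`,
`Pool.Agent.X298.HC.MDefs` (`Virt`, `IsPotAbelian`), `Pool.Agent.X298.HC.PoleDefs` (the statements),
`Pool.Agent.X298.HC.BC` (`HeckeChar.bc`: the composition with the relative norm) and
`Pool.Agent.W353.EF.Defs`, `Pool.Agent.W353.EH.Defs`.
-/

set_option autoImplicit false

namespace Pool.Agent.Results.MP_058a58_ag.PotentiallyAbelianProducts

open NumberField IsDedekindDomain Filter Topology Polynomial Pool.Agent.X298.HC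
open Pool.Agent.W353.EH (size HasOrder)

/-- **The pole of the products `X × Y`, `Y` with potentially abelian cohomology.**  Let `X` be a
projective variety of dimension `d` over a number field `K`, with Betti numbers `N a`, and for `a ≤ 2 d`
let `R a = (N a)²`, or let `R a` be the order of the pole of `L(H^a(X) ⊗ H^a(X), s)` at `s = a + 1`.
For `Y` with potentially abelian cohomology, with the representations `ρ b`, and representations `κ b`, the
defect is `s_{2m} - ∑ s'_a`, where `s_{2m}` is `log |L(m + 1 + ε)| / log(1/ε)` for `L(H^{2m}(X × Y), s)`,
and `s'_a` the same for `L(H^a(X) ⊗ κ (2m - a), s)` at `a/2 + 1`.  The rest is the tuple of all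
`ρ (2m - a) - κ (2m - a)`, `a ≤ 2d`, the inner product is the sum of the intertwining numbers.

1. For finitely many `(Y_k, ρ_k, κ_k, m_k)` with pairwise orthogonal rests, of norms `q_k`, and `η > 0`:
`∑ defect_k² / q_k ≤ ∑ R a + η` for all small `ε > 0`.

2. For every `r` there is a set `S` of at most `r ∑ R a` tuples of virtual representations such that for
all `Y`, `κ`, `m` with a rest orthogonal to `S` and of norm at most `r`: `|defect| < 1` for arbitrarily
small `ε > 0` (no continuation is assumed), and if the orders exist, then
`ord_{s = m + 1} L(H^{2m}(X × Y), s) = ∑ ord_{s = a/2 + 1} L(H^a(X) ⊗ κ (2m - a), s)`.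

3. If all `L(H^a(X) ⊗ π, s)`, `π` monomial and irreducible, have meromorphic continuations to
neighbourhoods of `s = a/2 + 1`, then there is a set `S` of at most `∑ R a` pairs `(a, π)` of this kind
such that for all `Y`, `κ`, `m` for which `ρ b - κ b` is a combination of monomial irreducible
representations (of any number of them) not equivalent to any `π` with `(2m - b, π) ∈ S`, the defect
tends to `0`, and the formula for the orders holds. -/
theorem result {K : Type} [Field K] [NumberField K] {n : ℕ}
    (X : Set (MvPolynomial (Fin n) (𝓞 K))) (d : ℕ) (N R : ℕ → ℕ) (hR : SecondMoment X d N R) :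
    PoleBessel X d N R ∧ (∀ r, PoleExceptional X d N R r) ∧
      (Continuations X d N → PoleMonomial X d N R) := by
  refine ⟨?_, fun r => ?_, fun H => ?_⟩
  · intro l D horth η hη
    have h := bessel_products X d N R hR (fun k => (D k).n') (fun k => (D k).e)
      (fun k => 2 * (D k).m) (fun _ => 0) (fun k => (D k).Y) (fun k => (D k).M)
      (fun k => (D k).ρ) (fun k => (D k).κ) (fun k => (D k).pot) horth
      (fun k => (D k).B) (fun k => (D k).B') (fun k => (D k).prod) (by
        intro k p hp π hπ
        rw [shift_zero] at hπ
        exact (D k).twist p hp π hπ) hη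
    simp only [shift_zero] at h
    exact h
  · obtain ⟨S, hS, h⟩ := kunneth_pa X d N R hR r
    refine ⟨S, hS, ?_⟩
    intro D hr hσ
    have h1 := h D.n' D.Y D.e D.M D.ρ D.κ (2 * D.m) 0 D.pot hr hσ D.B D.B' D.prod (by
      intro p hp π hπ
      rw [shift_zero] at hπ
      exact D.twist p hp π hπ)
    simp only [shift_zero] at h1
    exact h1
  · obtain ⟨S, hS, h⟩ := kunneth_mono X d N R hR Set.univ (fun a ha π _ hπ => H a ha π hπ)
    refine ⟨S, hS, ?_⟩
    intro D hσ
    have h1 := h D.n' D.Y D.e D.M D.ρ D.κ (2 * D.m) 0 D.pot (by
      intro p hp π hπ
      rw [shift_zero] at hπ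
      exact ⟨Set.mem_univ _, hσ p hp π hπ⟩) D.B D.B' D.prod (by
      intro p hp π hπ
      rw [shift_zero] at hπ
      exact D.twist p hp π hπ)
    simp only [shift_zero] at h1
    exact h1

end Pool.Agent.Results.MP_058a58_ag.PotentiallyAbelianProducts
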