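import Pool.Agent.X298.HC.PSMain

/-!
# The pole at `s = m + 1` for products `X × Y` without exceptional sets

`X` is an arbitrary projective variety of dimension `d` over a number field `K` (for instance over `ℚ`)
with Betti numbers `N a`.  `Y` runs over the projective varieties over `K` with potentially abelian
cohomology: the traces of Frobenius on `H^b(Y)` are `q_v^{b/2}` times those of a virtual representation
`ρ b` of the Weil group of `K` (an integral combination of representations `Ind ψ N^{-iτ}` induced from
Hecke characters of finite extensions of `K`).  `κ b` is an arbitrary representation, for instance the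
part of `ρ b` given by the algebraic classes; the theorem is about the case when the traces of the rest
`ρ b - κ b` vanish at most primes, for instance when the rest is induced from a large Galois extension
of `K`.
-/

set_option autoImplicit false

namespace Pool.Agent.Results.MP_058a58_ag.SparseProducts

open NumberField IsDedekindDomain Filter Topology Polynomial Pool.Agent.X298.HC

/-- **The pole at `s = m + 1` of `L(H^{2m}(X × Y), s)`, without exceptional sets.**  For `a ≤ 2 d` let
`κX a` be a virtual representation of the Weil group of `K` whose dual is a part of `H^a(X)` (for instance
zero), `A a` a set of primes of `K`, and let `r a = s² δ`, where `s` is the dimension of the rest of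
`H^a(X)` and `δ` a bound for the upper Dirichlet density of `A a`; or let `κX a = 0`, `A a` the set of the
primes of `K` with a prime of `F` of the same norm above them, `F` a Galois extension of `K`, and `r a` the
order of the pole of `L(H^a(X_F) ⊗ H^a(X_F), s)` at `s = a + 1` divided by `[F : K]`.

Let `Y` be such that for all `a ≤ 2 d` the trace of the rest of degree `a`, that is, of
`ρ (2m - a) - κ (2m - a)`, is zero at almost all primes outside `A a`, and let `q a` be the intertwining
number of this rest with itself.

1. If `∑_a √(r a q a) < 1`, then the order of the pole of `L(H^{2m}(X × Y), s)` at `s = m + 1` is the sum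
of the orders of the poles of the `L(H^a(X) ⊗ κ (2m - a), s)` at `a/2 + 1` and of the intertwining
numbers of `κX a` and the rest of degree `a` (the number of the Tate classes in the tensor products of
the known parts), if there are meromorphic continuations to neighbourhoods of these points; without
continuations the same holds for the quotients `log |L| / log(1/ε)` up to an error of at most `c < 1`,
for all small `ε > 0`.

2. For finitely many such products, real `c_k`, the differences `j_k` of the orders and the numbers `h_k`
of the Tate classes: `|∑ c_k (j_k - h_k)| ≤ ∑_a √(r a Q a)` with `Q a = ∑ c_k c_l ⟨rest_k a, rest_l a⟩`,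
and the same without continuations, up to `η`, for all small `ε > 0`.

3. If `F` is a Galois extension of `K`, then the primes of `K` with a prime of `F` of the same norm above
them have upper density at most `1/[F : K]`, and the condition on the traces holds for this set if the
rests are induced from `F`. -/
theorem result (K : Type) [Field K] [NumberField K] {n : ℕ}
    (X : Set (MvPolynomial (Fin n) (𝓞 K))) (d : ℕ) (N : ℕ → ℕ) (κX : ℕ → Virt K)
    (A : ℕ → Set (HeightOneSpectrum (𝓞 K))) (r : ℕ → ℝ)
    (hr : ∀ a ≤ 2 * d, RestOn X d a (N a) (κX a) (A a) (r a)) :
    PoleSparseExact X d N κX A r ∧ PoleSparseGram X d N κX A r ∧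
    ∀ (F : Type) [Field F] [NumberField F] [Algebra K F] [IsGalois K F],
      DensityLE (splitPrimes K F) (1 / Module.finrank K F) ∧
      ∀ D : PoleData X d N, D.InducedFrom F → D.SupportedOn (fun _ => splitPrimes K F) :=
  ⟨pole_sparse_exact hr, pole_sparse_gram hr, fun _ _ _ _ _ =>
    ⟨dens_split, fun D h => pole_supported D h⟩⟩

end Pool.Agent.Results.MP_058a58_ag.SparseProducts
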